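import Pool.Agent.H3.TG.LZT

/-!
Row GIS of the board `tga_modules` (MP_51eb24_ag).
-/

set_option autoImplicit false

namespace Pool.Agent.H3.TG

open MvPolynomial Pool.Agent.H2.ST Pool.Agent.H15.TG

/-- the occurring weights form a subgroup -/
def ocG {k : Type} [Field k] {m d : ℕ} {W : (Fin d → ℤ) → Submodule k (Pol k m)}
    {K : Subalgebra k (Pol k m)} (hGr : Gr W) (ng : ∀ χ, Oc W K χ → Oc W K (-χ)) :
    AddSubgroup (Fin d → ℤ) where
  carrier := {χ | Oc W K χ}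
  add_mem' := by
    rintro a b ⟨g, h1, h2, h3⟩ ⟨g', h1', h2', h3'⟩
    exact ⟨g * g', K.mul_mem h1 h1', hGr.mul _ _ _ _ h2 h2', mul_ne_zero h3 h3'⟩
  zero_mem' := ⟨1, K.one_mem, hGr.one, one_ne_zero⟩
  neg_mem' := by
    intro a ha
    exact ng a ha

/-- the additive function on the occurring weights -/
def ocl {k : Type} [Field k] {m d : ℕ} {W : (Fin d → ℤ) → Submodule k (Pol k m)}
    {K : Subalgebra k (Pol k m)} (hGr : Gr W) (ng : ∀ χ, Oc W K χ → Oc W K (-χ))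
    (l : (Fin d → ℤ) → ℤ)
    (la : ∀ χ χ', Oc W K χ → Oc W K χ' → l (χ + χ') = l χ + l χ') : ocG hGr ng →+ ℤ :=
  AddMonoidHom.mk' (fun χ => l χ.1) fun a b => la a.1 b.1 a.2 b.2

theorem ocl_apply {k : Type} [Field k] {m d : ℕ} {W : (Fin d → ℤ) → Submodule k (Pol k m)}
    {K : Subalgebra k (Pol k m)} (hGr : Gr W) (ng : ∀ χ, Oc W K χ → Oc W K (-χ))
    (l : (Fin d → ℤ) → ℤ)
    (la : ∀ χ χ', Oc W K χ → Oc W K χ' → l (χ + χ') = l χ + l χ') (χ : ocG hGr ng) :
    ocl hGr ng l la χ = l χ.1 := rfl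

/-- a basis of occurring weights containing a given one -/
theorem ext_basis {k : Type} [Field k] {d : ℕ} (S : Set (Fin d → ℤ)) (ψ : Fin d → ℤ)
    (hψ : ψ ∈ S) (h0 : (fun j => ((ψ j : ℤ) : k)) ≠ 0)
    (sp : ∀ l : Fin d → k, (∀ χ ∈ S, ∑ j, l j * ((χ j : ℤ) : k) = 0) → l = 0) :
    ∃ θ : Fin (d - 1) → Fin d → ℤ, (∀ i, θ i ∈ S) ∧
      LinearIndependent k (Sum.elim (fun i => fun j => ((θ i j : ℤ) : k))
        (fun _ : Unit => fun j => ((ψ j : ℤ) : k))) := by
  classical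
  let v : (Fin d → ℤ) → (Fin d → k) := fun χ j => ((χ j : ℤ) : k)
  have hspan : Submodule.span k (v '' S) = ⊤ := by
    by_contra hne
    obtain ⟨φ, hφ, hle⟩ := Submodule.exists_le_ker_of_lt_top _ (lt_top_iff_ne_top.2 hne)
    apply hφ
    have hφe : ∀ x : Fin d → k, φ x = ∑ j, φ (Pi.single j 1) * x j := by
      intro x
      conv_lhs => rw [pi_eq_sum_univ' x, map_sum]
      refine Finset.sum_congr rfl fun j _ => ?_
      rw [map_smul, smul_eq_mul, mul_comm]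
    have h1 := sp (fun j => φ (Pi.single j 1)) (fun χ hχ => by
      have h2 : φ (v χ) = 0 := hle (Submodule.subset_span ⟨χ, hχ, rfl⟩)
      rw [hφe] at h2
      exact h2)
    ext j
    rw [LinearMap.comp_apply, LinearMap.zero_comp, LinearMap.zero_apply]
    exact congrFun h1 j
  obtain ⟨b, hb1, hb2, hb3, hb4⟩ := exists_linearIndepOn_extension (K := k) (v := v)
    (s := {ψ}) (t := S) ((linearIndepOn_singleton_iff k).2 h0) (Set.singleton_subset_iff.2 hψ)
  have hbt : Submodule.span k (v '' b) = ⊤ := by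
    rw [eq_top_iff, ← hspan]
    exact Submodule.span_le.2 hb3
  have hψb : ψ ∈ b := hb2 rfl
  have hli : LinearIndependent k (fun x : b => v x) := hb4
  let B : Module.Basis b k (Fin d → k) := Module.Basis.mk hli (by
    rw [← hbt]
    apply Submodule.span_mono
    rintro _ ⟨x, hx, rfl⟩
    exact ⟨⟨x, hx⟩, rfl⟩)
  have : Finite b := Module.Finite.finite_basis B
  have : Fintype b := Fintype.ofFinite b
  have hcard : Fintype.card b = d := by
    have h1 := Module.finrank_eq_card_basis B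
    rw [Module.finrank_fin_fun] at h1
    exact h1.symm
  have hcard' : Fintype.card {x : b // x ≠ ⟨ψ, hψb⟩} = d - 1 := by
    rw [Fintype.card_subtype_compl, hcard, Fintype.card_subtype_eq]
  let e : Fin (d - 1) ≃ {x : b // x ≠ ⟨ψ, hψb⟩} := (Fintype.equivFinOfCardEq hcard').symm
  refine ⟨fun i => (e i).1.1, fun i => hb1 (e i).1.2, ?_⟩
  have h1 := hli.comp (Sum.elim (fun i => (e i).1) (fun _ : Unit => (⟨ψ, hψb⟩ : b))) (by
    rw [Sum.elim_injective]
    refine ⟨fun i j hij => e.injective (Subtype.ext hij), fun _ _ _ => rfl, fun i _ h => ?_⟩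
    exact (e i).2 h)
  convert h1 using 1
  funext x
  rcases x with x | x <;> rfl

theorem pf_GIS (hCOC : T_COC) (hCFC : T_CFC) (hFAC : T_FAC) : T_GIS := by
  intro k _ _ _ m d W K H f π σ q y ψ l hT
  have hGr : Gr W := hT.toGr
  have hbk := hT.bk
  let G := ocG hGr hT.ng
  let l' : G →+ ℤ := ocl hGr hT.ng l hT.la
  have hψoc : Oc W K ψ := ⟨π, (mem_Cf.1 hT.hp).1, hT.wp, hT.pp.ne_zero⟩
  have hcast : (fun j => ((ψ j : ℤ) : k)) ≠ 0 := by
    intro h
    apply hT.ψ0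
    funext j
    have h1 := congrFun h j
    simp only [Pi.zero_apply, Int.cast_eq_zero] at h1
    exact h1
  obtain ⟨θ, hθ, hli⟩ := ext_basis (k := k) {χ | Oc W K χ} ψ hψoc hcast hT.sp
  have hx0 : π * σ ≠ 0 := mul_ne_zero hT.pp.ne_zero hT.pσ.ne_zero
  have hxu : ¬ IsUnit (π * σ) := fun hu => hT.pp.not_isUnit (isUnit_of_mul_isUnit_left hu)
  have hxC := hT.sp'.2.1
  have hxW := hT.sp'.2.2.1
  -- the main construction
  have key : ∀ χ : Fin d → ℤ, Oc W K χ → ∃ g, g ∈ Cf K f ∧ g ∈ W (χ - l χ • ψ) ∧ ¬ σ ∣ g ∧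
      l (χ - l χ • ψ) = 0 ∧ Oc W K (χ - l χ • ψ) := by
    intro χ hχ
    obtain ⟨t, ht, htW, ht0⟩ := hCOC k m d W K H f hT.toFd χ hχ
    have hoc : Oc W K (χ - l χ • ψ) := by
      have h1 : (⟨χ, hχ⟩ : G) - l χ • (⟨ψ, hψoc⟩ : G) ∈ (⊤ : AddSubgroup G) := trivial
      exact ((⟨χ, hχ⟩ : G) - l χ • (⟨ψ, hψoc⟩ : G)).2
    have hl0 : l (χ - l χ • ψ) = 0 := by
      have h1 : l' ((⟨χ, hχ⟩ : G) - l χ • (⟨ψ, hψoc⟩ : G)) = l χ - l χ • l ψ := by
        rw [map_sub, map_zsmul]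
        rfl
      rw [hT.l1, smul_eq_mul, mul_one, sub_self] at h1
      exact h1
    obtain ⟨t', ht', htW', ht0'⟩ : ∃ t', t' ∈ Cf K f ∧ t' ∈ W (χ - l χ • ψ) ∧ t' ≠ 0 := by
      rcases le_total 0 (l χ) with h0 | h0
      · obtain ⟨n, hn⟩ := Int.eq_ofNat_of_zero_le h0
        refine ⟨t * σ ^ n, Subalgebra.mul_mem _ ht (Subalgebra.pow_mem _ hT.hσ n), ?_,
          mul_ne_zero ht0 (pow_ne_zero _ hT.pσ.ne_zero)⟩
        have h1 := hGr.mul _ _ _ _ htW (pow_mem_gr hGr hT.wσ n)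
        rw [hn]
        rwa [show χ + n • -ψ = χ - ((n : ℕ) : ℤ) • ψ by
          rw [smul_neg, sub_eq_add_neg, natCast_zsmul]] at h1
      · obtain ⟨n, hn⟩ := Int.eq_ofNat_of_zero_le (neg_nonneg.2 h0)
        refine ⟨t * π ^ n, Subalgebra.mul_mem _ ht (Subalgebra.pow_mem _ hT.hp n), ?_,
          mul_ne_zero ht0 (pow_ne_zero _ hT.pp.ne_zero)⟩
        have h1 := hGr.mul _ _ _ _ htW (pow_mem_gr hGr hT.wp n)
        rw [show l χ = -((n : ℕ) : ℤ) by omega]
        rwa [show χ + n • ψ = χ - (-((n : ℕ) : ℤ)) • ψ by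
          rw [neg_smul, sub_neg_eq_add, natCast_zsmul]] at h1
    obtain ⟨r, g, hxg, hg⟩ := WfDvdMonoid.max_power_factor' ht0' hxu
    have hne : (π * σ) ^ r * g ≠ 0 := by rw [← hg]; exact ht0'
    have hgC : g ∈ Cf K f := by
      refine (hCFC k m d W K H f hT.toFd _ g hne ?_).2
      rw [← hg]; exact ht'
    have hgW : g ∈ W (χ - l χ • ψ) := by
      obtain ⟨b1, b2, hb1, hb2, hb⟩ := hFAC k (Pol k m) (Fin d → ℤ) W hGr _ _ g
        (by rw [← hg]; exact htW') hne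
      have h3 := pow_mem_gr hGr hxW r
      rw [smul_zero] at h3
      have h4 : b1 = 0 := wt_uniq hGr hb1 h3 (left_ne_zero_of_mul hne)
      rw [h4, zero_add] at hb
      rwa [hb] at hb2
    refine ⟨g, hgC, hgW, ?_, hl0, hoc⟩
    rintro ⟨g', hg'⟩
    have hne' : σ * g' ≠ 0 := by rw [← hg']; exact right_ne_zero_of_mul hne
    have hg'0 : g' ≠ 0 := right_ne_zero_of_mul hne'
    have hg'C : g' ∈ Cf K f := by
      refine (hCFC k m d W K H f hT.toFd _ g' hne' ?_).2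
      rw [← hg']; exact hgC
    have hg'W : g' ∈ W (χ - l χ • ψ + ψ) := by
      obtain ⟨b1, b2, hb1, hb2, hb⟩ := hFAC k (Pol k m) (Fin d → ℤ) W hGr _ _ g'
        (by rw [← hg']; exact hgW) hne'
      have h4 : b1 = -ψ := wt_uniq hGr hb1 hT.wσ hT.pσ.ne_zero
      rw [h4] at hb
      rwa [show b2 = χ - l χ • ψ + ψ by rw [← hb]; abel] at hb2
    have hl1 : l (χ - l χ • ψ + ψ) = 1 := by
      rw [hT.la _ _ hoc hψoc, hl0, hT.l1, zero_add]
    obtain ⟨g'', hg''⟩ := hT.lp _ g' hg'C hg'W (by rw [hl1]; norm_num)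
    apply hxg
    exact ⟨g'', by rw [hg', hg'']; ring⟩
  choose! g hg1 hg2 hg3 hg4 hg5 using key
  refine ⟨fun i => θ i - l (θ i) • ψ, fun i => g (θ i), fun i =>
    ⟨hg1 _ (hθ i), hg2 _ (hθ i), hg3 _ (hθ i), hg4 _ (hθ i)⟩, ?_⟩
  intro χ' hχ' hlχ'
  rw [Fintype.linearIndependent_iff]
  intro a ha
  rw [Fintype.sum_sum_type] at ha
  simp only [Sum.elim_inl, Sum.elim_inr, Finset.univ_unique, Finset.sum_singleton] at ha
  set N := a (Sum.inr default) with hN
  -- apply `l`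
  have hN0 : N = 0 := by
    let u : G := ∑ i, a (Sum.inl i) • (⟨θ i - l (θ i) • ψ, hg5 _ (hθ i)⟩ : G) +
      N • (⟨χ', hχ'⟩ : G)
    have hu : u = 0 := by
      apply Subtype.ext
      have : (u : Fin d → ℤ) = ∑ i, a (Sum.inl i) • (θ i - l (θ i) • ψ) + N • χ' := by
        simp only [u]
        push_cast
        rfl
      rw [this, ha]
      rfl
    have h1 : l' u = N * l χ' := by
      simp only [u]
      rw [map_add, map_sum, map_zsmul]
      have h2 : ∀ i, l' (a (Sum.inl i) • (⟨θ i - l (θ i) • ψ, hg5 _ (hθ i)⟩ : G)) = 0 := by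
        intro i
        rw [map_zsmul]
        have : l' (⟨θ i - l (θ i) • ψ, hg5 _ (hθ i)⟩ : G) = l (θ i - l (θ i) • ψ) := rfl
        rw [this, hg4 _ (hθ i), smul_zero]
      rw [Finset.sum_eq_zero fun i _ => h2 i, zero_add, smul_eq_mul]
      rfl
    rw [hu, map_zero] at h1
    rcases mul_eq_zero.1 h1.symm with h | h
    · exact h
    · exact absurd h hlχ'
  rw [hN0, zero_smul, add_zero] at ha
  -- cast
  have hcomb := Fintype.linearIndependent_iff.1 hli
    (Sum.elim (fun i => ((a (Sum.inl i) : ℤ) : k))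
      (fun _ => ((-∑ i, a (Sum.inl i) * l (θ i) : ℤ) : k))) (by
    rw [Fintype.sum_sum_type]
    simp only [Sum.elim_inl, Sum.elim_inr, Finset.univ_unique, Finset.sum_singleton]
    funext j
    have h1 := congrFun ha j
    simp only [Finset.sum_apply, Pi.smul_apply, Pi.sub_apply, smul_eq_mul, Pi.zero_apply] at h1
    have h2 := congrArg (fun z : ℤ => (z : k)) h1
    simp only [Pi.add_apply, Finset.sum_apply, Pi.smul_apply, smul_eq_mul, Pi.zero_apply]
    rw [← Int.cast_zero, ← h2]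
    push_cast
    rw [neg_mul, Finset.sum_mul, ← Finset.sum_neg_distrib, ← Finset.sum_add_distrib]
    refine Finset.sum_congr rfl fun i _ => ?_
    ring)
  rintro (i | i)
  · have h1 := hcomb (Sum.inl i)
    simp only [Sum.elim_inl, Int.cast_eq_zero] at h1
    exact h1
  · have : i = default := rfl
    rw [this]
    exact hN0

end Pool.Agent.H3.TG
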