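import Pool.Agent.H3.TG.GIS

/-!
Row KLO of the board `tga_modules` (MP_51eb24_ag).
-/

set_option autoImplicit false

namespace Pool.Agent.H3.TG

open MvPolynomial Pool.Agent.H2.ST Pool.Agent.H15.TG

/-- brackets of coordinates with different index vanish at the origin -/
theorem ada_ne {k Γ : Type} [Field k] [AddCommGroup Γ] {m : ℕ} {W : Γ → Submodule k (Pol k m)}
    {y : Fin m ⊕ Fin m → Pol k m} {w : Fin m → Γ} (h : Ada W y w) (s t : Fin m ⊕ Fin m)
    (hst : Sum.elim id id s ≠ Sum.elim id id t) : constantCoeff (br (y s) (y t)) = 0 := by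
  rcases s with i | i <;> rcases t with j | j
  · exact h.ll i j
  · have h1 : i ≠ j := hst
    rw [h.lr i j, if_neg h1]
  · have h1 : j ≠ i := fun h => hst h.symm
    rw [br_anti, map_neg, h.lr j i, if_neg h1, neg_zero]
  · exact h.rr i j

theorem ada_swap {k Γ : Type} [Field k] [AddCommGroup Γ] {m : ℕ} {W : Γ → Submodule k (Pol k m)}
    {y : Fin m ⊕ Fin m → Pol k m} {w : Fin m → Γ} (h : Ada W y w) (s : Fin m ⊕ Fin m) :
    constantCoeff (br (y s) (y s.swap)) ≠ 0 := by
  rcases s with i | i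
  · rw [Sum.swap_inl, h.lr i i, if_pos rfl]
    exact one_ne_zero
  · rw [Sum.swap_inr, br_anti, map_neg, h.lr i i, if_pos rfl]
    exact neg_ne_zero.2 one_ne_zero

theorem pf_KLO (hKNG : T_KNG) (hKRL : T_KRL) : T_KLO := by
  intro k _ m d W K y w κ hK l la hex
  have hGr : Gr W := hK.toGr
  have hA := hK.ad'
  obtain ⟨-, hoc, hng, -⟩ := hKNG k m d W K y w κ hK
  let G := ocG hGr hng
  let l' : G →+ ℤ := ocl hGr hng l la
  have hw : ∀ i, w i ∈ G := by
    intro i
    by_cases h0 : w i = 0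
    · rw [h0]; exact G.zero_mem
    · exact (hoc i h0).1
  let w' : Fin m → G := fun i => ⟨w i, hw i⟩
  have hl' : ∀ i, l' (w' i) = l (w i) := fun i => rfl
  have hl0 : l 0 = 0 := by
    have h1 : l' 0 = 0 := map_zero l'
    exact h1
  -- some weight is not killed
  obtain ⟨i0, hi0⟩ : ∃ i, l (w i) ≠ 0 := by
    by_contra hcon
    push Not at hcon
    obtain ⟨χ, ⟨g, hgK, hgW, hg0⟩, hχ⟩ := hex
    have h1 := (hKRL k m (Fin d → ℤ) W y w hK.toPGr hA χ g hgW).1
    obtain ⟨α, hα⟩ : ∃ α : Fin m ⊕ Fin m →₀ ℕ, wtm w α = χ := by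
      by_contra hc
      push Not at hc
      exact hg0 (h1 hc)
    apply hχ
    let u : G := ∑ i, ((α (Sum.inl i) : ℤ) - (α (Sum.inr i) : ℤ)) • w' i
    have hu : (u : Fin d → ℤ) = χ := by
      simp only [u]
      rw [← hα]
      unfold wtm
      push_cast
      rfl
    have h2 : l' u = 0 := by
      simp only [u]
      rw [map_sum]
      refine Finset.sum_eq_zero fun i _ => ?_
      rw [map_zsmul, hl', hcon i, smul_zero]
    have h3 : l' u = l χ := by
      rw [← hu]; rfl
    rw [← h3, h2]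
  have hwne : ∀ i, l (w i) ≠ 0 → w i ≠ 0 := by
    intro i h h0
    rw [h0, hl0] at h
    exact h rfl
  obtain ⟨c, hc1, hc2⟩ := hK.re
  obtain ⟨i1, hi1, hne⟩ : ∃ i1, l (w i1) ≠ 0 ∧ i1 ≠ i0 := by
    by_contra hcon
    push Not at hcon
    have h1 : ∑ i, c i * l (w i) = 0 := by
      have h2 : (∑ i, c i • w' i : G) = 0 := by
        apply Subtype.ext
        push_cast
        exact hc2
      have h3 := congrArg l' h2
      rw [map_sum, map_zero] at h3
      rw [← h3]
      refine Finset.sum_congr rfl fun i _ => ?_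
      rw [map_zsmul, hl', smul_eq_mul]
    rw [Finset.sum_eq_single i0] at h1
    · rcases mul_eq_zero.1 h1 with h | h
      · exact hc1 i0 (hwne i0 hi0) h
      · exact hi0 h
    · intro i _ hi
      by_cases h4 : l (w i) = 0
      · rw [h4, mul_zero]
      · exact absurd (hcon i h4) hi
    · intro h; exact absurd (Finset.mem_univ _) h
  have hln : ∀ i, l (-w i) = -l (w i) := by
    intro i
    have h1 : l' (-(w' i)) = -l (w i) := by rw [map_neg, hl']
    exact h1
  -- the elements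
  have hel : ∀ i, l (w i) ≠ 0 → ∃ (s : Fin m ⊕ Fin m) (χ : Fin d → ℤ), Sum.elim id id s = i ∧
      κ s ∈ K ∧ κ s ∈ W χ ∧ l χ < 0 ∧
      ∀ g, constantCoeff (br (κ s) g) = constantCoeff (br (y s) g) := by
    intro i hi
    rcases lt_or_gt_of_ne hi with h | h
    · obtain ⟨h1, h2, h3⟩ := hK.kl i (hwne i hi)
      exact ⟨Sum.inl i, w i, rfl, h1, h2, h, h3⟩
    · obtain ⟨h1, h2, h3⟩ := hK.kr i (hwne i hi)
      exact ⟨Sum.inr i, -w i, rfl, h1, h2, by rw [hln]; omega, h3⟩
  obtain ⟨s, χ, hs, hsK, hsW, hsl, hsb⟩ := hel i0 hi0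
  obtain ⟨t, χ', ht, htK, htW, htl, htb⟩ := hel i1 hi1
  refine ⟨χ, χ', κ s, hsK, κ t, htK, hsW, htW, hsl, htl, ?_⟩
  rintro σ ⟨a, ha⟩ ⟨b, hb⟩ hσ
  have e1 : ∀ z, constantCoeff (br (κ s) z) = constantCoeff a * constantCoeff (br σ z) := by
    intro z
    rw [ha, mul_br, map_add, map_mul, map_mul, hσ, zero_mul, zero_add]
  have e2 : ∀ z, constantCoeff (br (κ t) z) = constantCoeff b * constantCoeff (br σ z) := by
    intro z
    rw [hb, mul_br, map_add, map_mul, map_mul, hσ, zero_mul, zero_add]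
  have h1 : constantCoeff (br (κ s) (y s.swap)) ≠ 0 := by
    rw [hsb]; exact ada_swap hA s
  have h2 : constantCoeff (br (κ t) (y t.swap)) ≠ 0 := by
    rw [htb]; exact ada_swap hA t
  have h3 : constantCoeff (br (κ t) (y s.swap)) = 0 := by
    rw [htb]
    refine ada_ne hA t s.swap ?_
    have h4 : Sum.elim id id s.swap = (Sum.elim id id s : Fin m) := by
      rcases s with i | i <;> rfl
    rw [h4, ht, hs]
    exact hne
  rw [e1] at h1
  rw [e2] at h2 h3
  rcases mul_eq_zero.1 h3 with h | h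
  · exact left_ne_zero_of_mul h2 h
  · exact right_ne_zero_of_mul h1 h

end Pool.Agent.H3.TG
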