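import Pool.Agent.H3.TG.LZT

/-!
Row LZC of the board `tga_modules` (MP_51eb24_ag).
-/

set_option autoImplicit false

namespace Pool.Agent.H3.TG

open MvPolynomial Pool.Agent.H2.ST Pool.Agent.H15.TG

theorem pf_LZC (hFAX : T_FAX) (hCOC : T_COC) (_hDVR : T_DVR) (hCFC : T_CFC) (hFAC : T_FAC) :
    T_LZC := by
  intro k _ _ _ m d W K H f hG ψ π x y hψ hπ hπC hπW hS hD χ g hgC hgW hg0 hcop
  have hGr : Gr W := hG.toGr
  have hbk := hG.bk
  obtain ⟨hx0, hxC, hxW, hπx, hSx⟩ := hS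
  have hS' : Spx W K f π x := ⟨hx0, hxC, hxW, hπx, hSx⟩
  have hxu : ¬ IsUnit x := fun hu => hπ.not_isUnit (isUnit_of_dvd_unit hπx hu)
  -- an element of the opposite weight
  have hoc : Oc W K (-χ) := hG.ng χ ⟨g, (mem_Cf.1 hgC).1, hgW, hg0⟩
  obtain ⟨h, hhC, hhW, hh0⟩ := hCOC k m d W K H f hG.toFd _ hoc
  obtain ⟨n, h1, hxh1, hh⟩ := WfDvdMonoid.max_power_factor' hh0 hxu
  have hne : x ^ n * h1 ≠ 0 := by rw [← hh]; exact hh0
  have hh1 : h1 ≠ 0 := right_ne_zero_of_mul hne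
  have hh1C : h1 ∈ Cf K f := by
    refine (hCFC k m d W K H f hG.toFd (x ^ n) h1 hne ?_).2
    rw [← hh]; exact hhC
  have hh1W : h1 ∈ W (-χ) := by
    obtain ⟨b1, b2, hb1, hb2, hb⟩ := hFAC k (Pol k m) (Fin d → ℤ) W hGr (-χ) (x ^ n) h1
      (by rw [← hh]; exact hhW) hne
    have h3 := pow_mem_gr hGr hxW n
    rw [smul_zero] at h3
    have h4 : b1 = 0 := wt_uniq hGr hb1 h3 (left_ne_zero_of_mul hne)
    rw [h4, zero_add] at hb
    rwa [hb] at hb2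
  -- `x` does not divide `g * h1`
  have hxg : ¬ x ∣ g * h1 := by
    intro hd
    apply hxh1
    refine UniqueFactorizationMonoid.dvd_of_dvd_mul_left_of_no_prime_factors (c := g) hx0 ?_
      (by rw [mul_comm]; exact hd)
    intro ρ hρ hρg hρp
    exact hcop ρ hρp hρ hρg
  have hghC : g * h1 ∈ Cf K f := Subalgebra.mul_mem _ hgC hh1C
  have hghW : g * h1 ∈ W 0 := by
    have h3 := hGr.mul _ _ _ _ hgW hh1W
    rwa [add_neg_cancel] at h3
  have hπgh : ¬ π ∣ g * h1 := fun hd => hxg (hSx _ hghC hghW hd)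
  -- a second prime factor
  obtain ⟨x', hx'⟩ := hπx
  have hne' : π * x' ≠ 0 := by rw [← hx']; exact hx0
  have hx'0 : x' ≠ 0 := right_ne_zero_of_mul hne'
  have hx'C : x' ∈ Cf K f := by
    refine (hCFC k m d W K H f hG.toFd π x' hne' ?_).2
    rw [← hx']; exact hxC
  have hx'W : x' ∈ W (-ψ) := by
    obtain ⟨b1, b2, hb1, hb2, hb⟩ := hFAC k (Pol k m) (Fin d → ℤ) W hGr 0 π x'
      (by rw [← hx']; exact hxW) hne'
    have h4 : b1 = ψ := wt_uniq hGr hb1 hπW hπ.ne_zero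
    rw [h4] at hb
    rwa [show b2 = -ψ from eq_neg_of_add_eq_zero_right hb] at hb2
  have hx'u : ¬ IsUnit x' := by
    intro hu
    rw [MvPolynomial.isUnit_iff_eq_C_of_isReduced] at hu
    obtain ⟨r, -, hr⟩ := hu
    have h5 : x' ∈ W 0 := by
      rw [hr]
      exact algebraMap_mem_gr hGr r
    exact hψ (neg_eq_zero.1 (wt_uniq hGr hx'W h5 hx'0))
  obtain ⟨π', hπ', hπ'x'⟩ := exists_prime_dvd hx'0 hx'u
  have hπ'x : π' ∣ x := by rw [hx']; exact Dvd.dvd.mul_left hπ'x' _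
  obtain ⟨-, θ, -, -, hS1⟩ := hFAX k m d W K H f hG ψ π x π' hψ hπ hπC hπW hS' hπ' hπ'x
  set L : Pol k m := ∑ j, ((χ j : ℤ) : k) • y j with hLdef
  obtain ⟨hLC, hLW⟩ := L_mem hD χ
  have hbr : br g x = -(g * L) := hD.2 χ g hgC hgW
  have e1 : h1 * x' * br g π + h1 * π * br g x' = -(g * h1 * L) := by
    have e2 : br g x = π * br g x' + x' * br g π := by
      rw [hx', br_mul]
    have e3 : h1 * br g x = -(g * h1 * L) := by
      rw [hbr]; ring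
    rw [← e3, e2]; ring
  have d1 : x ∣ h1 * x' * br g π := by
    refine hS1.2.2.2.2 _ (Subalgebra.mul_mem _ (Subalgebra.mul_mem _ hh1C hx'C)
      (Cf_br hbk hgC hπC)) ?_ (Dvd.dvd.mul_right (Dvd.dvd.mul_left hπ'x' _) _)
    have h2 := hGr.mul _ _ _ _ (hGr.mul _ _ _ _ hh1W hx'W) (hG.pbr _ _ _ _ hgW hπW)
    rwa [show -χ + -ψ + (χ + ψ) = 0 by abel] at h2
  have d2 : x ∣ h1 * π * br g x' := by
    refine hSx _ (Subalgebra.mul_mem _ (Subalgebra.mul_mem _ hh1C hπC)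
      (Cf_br hbk hgC hx'C)) ?_ (Dvd.dvd.mul_right (dvd_mul_left _ _) _)
    have h2 := hGr.mul _ _ _ _ (hGr.mul _ _ _ _ hh1W hπW) (hG.pbr _ _ _ _ hgW hx'W)
    rwa [show -χ + ψ + (χ + -ψ) = 0 by abel] at h2
  have d3 : x ∣ g * h1 * L := by
    rw [← dvd_neg, ← e1]
    exact dvd_add d1 d2
  have d4 : π ∣ L := by
    have h3 : π ∣ g * h1 * L := dvd_trans ⟨x', hx'⟩ d3
    rcases hπ.dvd_or_dvd h3 with h4 | h4
    · exact absurd h4 hπgh
    · exact h4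
  exact L_zero hx0 hg0 hbr (hSx _ hLC hLW d4)

end Pool.Agent.H3.TG
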