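import Pool.Agent.H15.TG.Targets

/-!
Row LZT of the board `tga_modules` (MP_51eb24_ag).
-/

set_option autoImplicit false

namespace Pool.Agent.H3.TG

open MvPolynomial Pool.Agent.H2.ST Pool.Agent.H15.TG

variable {k : Type} [Field k] {m d : ℕ}

theorem Cf_br {K : Subalgebra k (Pol k m)} {f a b : Pol k m}
    (bk : ∀ a ∈ K, ∀ b ∈ K, br a b ∈ K) (ha : a ∈ Cf K f) (hb : b ∈ Cf K f) :
    br a b ∈ Cf K f := by
  rw [mem_Cf] at ha hb ⊢
  refine ⟨bk _ ha.1 _ hb.1, ?_⟩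
  rw [jac, ha.2, hb.2, zero_br, br_zero, add_zero]

theorem exists_prime_dvd {c : Pol k m} (h0 : c ≠ 0) (hc : ¬ IsUnit c) :
    ∃ ρ : Pol k m, Prime ρ ∧ ρ ∣ c := by
  obtain ⟨ρ, h1, h2⟩ := WfDvdMonoid.exists_irreducible_factor hc h0
  exact ⟨ρ, UniqueFactorizationMonoid.irreducible_iff_prime.1 h1, h2⟩

theorem L_mem {W : (Fin d → ℤ) → Submodule k (Pol k m)} {K : Subalgebra k (Pol k m)}
    {f x : Pol k m} {y : Fin d → Pol k m} (hD : Dv W K f x y) (χ : Fin d → ℤ) :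
    (∑ j, ((χ j : ℤ) : k) • y j) ∈ Cf K f ∧ (∑ j, ((χ j : ℤ) : k) • y j) ∈ W 0 :=
  ⟨Subalgebra.sum_mem _ fun j _ => Subalgebra.smul_mem _ (hD.1 j).1 _,
    Submodule.sum_mem _ fun j _ => Submodule.smul_mem _ _ (hD.1 j).2⟩

/-- the degree argument -/
theorem L_zero {x g L : Pol k m} (hx : x ≠ 0) (hg : g ≠ 0) (hb : br g x = -(g * L))
    (hd : x ∣ L) : L = 0 := by
  by_contra hL
  have h1 : g * L ≠ 0 := mul_ne_zero hg hL
  have h2 : br g x ≠ 0 := by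
    rw [hb]; exact neg_ne_zero.2 h1
  have h3 := deg_br g x h2
  rw [hb, totalDegree_neg, totalDegree_mul_of_isDomain hg hL] at h3
  obtain ⟨t, ht⟩ := hd
  have ht0 : t ≠ 0 := by
    rintro rfl
    rw [mul_zero] at ht
    exact hL ht
  have h4 : L.totalDegree = x.totalDegree + t.totalDegree := by
    rw [ht, totalDegree_mul_of_isDomain hx ht0]
  omega

theorem pf_LZT (hFAX : T_FAX) (hCFC : T_CFC) (hFAC : T_FAC) : T_LZT := by
  intro k _ _ _ m d W K H f hG ψ π π' c x y hψ hπ hπC hπW hS hD hx hπ' hc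
  have hGr : Gr W := hG.toGr
  obtain ⟨hx0, hxC, hxW, hπx, hSx⟩ := hS
  have hS' : Spx W K f π x := ⟨hx0, hxC, hxW, hπx, hSx⟩
  have hxe : x = π * (π' * c) := by rw [hx, mul_assoc]
  have hne : π * (π' * c) ≠ 0 := by rw [← hxe]; exact hx0
  have hpc0 : π' * c ≠ 0 := right_ne_zero_of_mul hne
  have hc0 : c ≠ 0 := right_ne_zero_of_mul hpc0
  have hpcC : π' * c ∈ Cf K f := by
    refine (hCFC k m d W K H f hG.toFd π (π' * c) hne ?_).2
    rw [← hxe]; exact hxC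
  obtain ⟨hπ'C, hcC⟩ := hCFC k m d W K H f hG.toFd π' c hpc0 hpcC
  obtain ⟨b1, b2, hb1, hb2, hb⟩ := hFAC k (Pol k m) (Fin d → ℤ) W hGr 0 π (π' * c)
    (by rw [← hxe]; exact hxW) hne
  have hb1' : b1 = ψ := wt_uniq hGr hb1 hπW hπ.ne_zero
  obtain ⟨b3, b4, hb3, hb4, hb'⟩ := hFAC k (Pol k m) (Fin d → ℤ) W hGr b2 π' c hb2 hpc0
  have hsum : ψ + b3 + b4 = 0 := by
    rw [add_assoc, hb', ← hb1', hb]
  obtain ⟨ρ, hρ, hρc⟩ := exists_prime_dvd hc0 hc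
  have hρx : ρ ∣ x := by rw [hx]; exact Dvd.dvd.mul_left hρc _
  have hπ'x : π' ∣ x := by rw [hx, mul_comm π π', mul_assoc]; exact dvd_mul_right _ _
  obtain ⟨-, θ1, -, -, hS1⟩ := hFAX k m d W K H f hG ψ π x ρ hψ hπ hπC hπW hS' hρ hρx
  obtain ⟨-, θ2, -, -, hS2⟩ := hFAX k m d W K H f hG ψ π x π' hψ hπ hπC hπW hS' hπ' hπ'x
  set L : Pol k m := ∑ j, ((ψ j : ℤ) : k) • y j with hLdef
  obtain ⟨hLC, hLW⟩ := L_mem hD ψ
  have hbr : br π x = -(π * L) := hD.2 ψ π hπC hπW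
  have h1 : br π x = π * (π' * br π c + c * br π π') := by
    rw [hx, br_mul, br_mul, br_self]; ring
  have hL : L = -(c * br π π') - (π' * br π c) := by
    have h2 : π * L = π * (-(c * br π π') - (π' * br π c)) := by
      have h3 : π * L = -br π x := by rw [hbr, neg_neg]
      rw [h3, h1]; ring
    exact mul_left_cancel₀ hπ.ne_zero h2
  have hbk := hG.bk
  have d1 : x ∣ c * br π π' := by
    refine hS1.2.2.2.2 _ (Subalgebra.mul_mem _ hcC (Cf_br hbk hπC hπ'C)) ?_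
      (Dvd.dvd.mul_right hρc _)
    have h2 := hGr.mul _ _ _ _ hb4 (hG.pbr _ _ _ _ hπW hb3)
    rwa [show b4 + (ψ + b3) = 0 by rw [add_comm, hsum]] at h2
  have d2 : x ∣ π' * br π c := by
    refine hS2.2.2.2.2 _ (Subalgebra.mul_mem _ hπ'C (Cf_br hbk hπC hcC)) ?_
      (dvd_mul_right _ _)
    have h2 := hGr.mul _ _ _ _ hb3 (hG.pbr _ _ _ _ hπW hb4)
    rwa [show b3 + (ψ + b4) = 0 by rw [← hsum]; abel] at h2
  have d3 : x ∣ L := by
    rw [hL]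
    exact dvd_sub (dvd_neg.2 d1) d2
  exact L_zero hx0 hπ.ne_zero hbr d3

end Pool.Agent.H3.TG
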